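import Pool.Agent.H17.AC7

set_option autoImplicit false

namespace Pool.Agent.Results.MP_c93f48_co.AllButAP

open Pool.Agent.H17.AC

/-- some infinite word over `A` has no three consecutive nonempty blocks of equal length and sum -/
def Avoidable (A : Finset ℕ) : Prop :=
  ∃ x : ℕ → ℕ, (∀ n, x n ∈ A) ∧ ∀ p n : ℕ, 0 < n →
    ¬ (∑ k ∈ Finset.range n, x (p + k) = ∑ k ∈ Finset.range n, x (p + n + k) ∧
      ∑ k ∈ Finset.range n, x (p + n + k) = ∑ k ∈ Finset.range n, x (p + 2 * n + k))

theorem result (A : Finset ℕ) (h : ¬ ∃ a d : ℕ, 0 < d ∧ A = {a, a + d, a + 2 * d}) :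
    Avoidable A ↔ 3 ≤ A.card := by
  constructor
  · rintro ⟨x, h1, h2⟩
    by_contra hc
    have h3 : ∃ a b : ℕ, ∀ n, x n = a ∨ x n = b := by
      by_cases h4 : ∀ n, x n = x 0
      · exact ⟨x 0, x 0, fun n => Or.inl (h4 n)⟩
      · push Not at h4
        obtain ⟨m, hm⟩ := h4
        refine ⟨x 0, x m, fun n => ?_⟩
        by_contra hn
        push Not at hn
        exact hc (Finset.two_lt_card_iff.mpr
          ⟨x 0, x m, x n, h1 0, h1 m, h1 n, hm.symm, hn.1.symm, hn.2.symm⟩)
    obtain ⟨a, b, h3⟩ := h3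
    refine not_free_two (fun n => (x n : ℤ)) a b (fun n => ?_) (freeZ_cast.mpr h2)
    have := h3 n
    omega
  · intro h3
    have hi : Function.Injective (Nat.cast : ℕ → ℤ) := Nat.cast_injective
    obtain ⟨x, h1, h2⟩ := gen (A.image Nat.cast) (by rwa [Finset.card_image_of_injective _ hi])
      (by
        rintro ⟨a, d, hd, e⟩
        have ha : a ∈ A.image (Nat.cast : ℕ → ℤ) := by rw [e]; simp
        obtain ⟨a', -, rfl⟩ := Finset.mem_image.mp ha
        obtain ⟨d', rfl⟩ := Int.eq_ofNat_of_zero_le hd.le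
        refine h ⟨a', d', by omega, Finset.image_injective hi ?_⟩
        rw [e]
        simp)
    choose y hy using fun n => Finset.mem_image.mp (h1 n)
    refine ⟨y, fun n => (hy n).1, freeZ_cast.mp ?_⟩
    convert h2 using 2 with n
    exact (hy n).2

end Pool.Agent.Results.MP_c93f48_co.AllButAP
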